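import Pool.Agent.helper11.VQ.Spec3a

/-!
# MP_07c750, project VQ, row KPZ (kernels on the quotient of an abstract phase space: unfolding)
-/

set_option autoImplicit false

open scoped ENNReal ComplexConjugate Topology
open MeasureTheory Filter Set

namespace Pool.Agent.VQ

open Pool.Agent.RPQ (IsOp IsMul OProj wrd PJ und1 nst mks)

section KPZ

variable {Γ : Type} [Group Γ] {Y : Type} [MeasurableSpace Y] [MulAction Γ Y] {m : Measure Y} {D : Set Y} {d : Y → Y → ℝ}

theorem KPZ_ms (hP : PS Γ Y m D d) : MeasurableConstSMul Γ Y := ⟨fun γ => (hP.act γ).measurable⟩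

theorem KPZ_im (hP : PS Γ Y m D d) : SMulInvariantMeasure Γ Y m :=
  ⟨fun γ s hs => (hP.act γ).measure_preimage hs.nullMeasurableSet⟩

theorem KPZ_fd (hP : PS Γ Y m D d) : IsFundamentalDomain Γ D m := by
  have h1 := KPZ_ms hP
  have h2 := KPZ_im hP
  exact IsFundamentalDomain.mk' hP.meas.nullMeasurableSet hP.uniq

theorem KPZ_ballm (hP : PS Γ Y m D d) (x : Y) (T : ℝ) : MeasurableSet {y : Y | d x y ≤ T} := by
  have h1 : Measurable (fun y => d x y) := hP.dm.comp (measurable_const.prodMk measurable_id)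
  exact measurableSet_le h1 measurable_const

theorem KPZ_int (hP : PS Γ Y m D d) {f : Y → ℂ} (hf : Measurable f) {B T : ℝ} (hB : ∀ y, ‖f y‖ ≤ B) (x : Y)
    (hs : ∀ y, f y ≠ 0 → d x y ≤ T) : Integrable f m := by
  obtain ⟨C, hC⟩ := hP.vol T
  have h1 : IntegrableOn f {y : Y | d x y ≤ T} m := by
    apply Measure.integrableOn_of_bounded (M := B)
    · exact ((hC x).trans_lt ENNReal.ofReal_lt_top).ne
    · exact hf.aestronglyMeasurable
    · exact Eventually.of_forall hB
  apply h1.integrable_of_forall_notMem_eq_zero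
  intro y hy
  by_contra h
  exact hy (hs y h)

theorem KPZ_bd (hP : PS Γ Y m D d) {C T : ℝ} (hC : ∀ x, m {y | d x y ≤ T} ≤ ENNReal.ofReal C) {f : Y → ℂ} {B : ℝ}
    (hB : ∀ y, ‖f y‖ ≤ B) (x : Y) (hs : ∀ y, f y ≠ 0 → d x y ≤ T) : ‖∫ y, f y ∂m‖ ≤ B * max C 0 := by
  have hB0 : 0 ≤ B := (norm_nonneg _).trans (hB x)
  have h1 : ∫ y in {y : Y | d x y ≤ T}, f y ∂m = ∫ y, f y ∂m := by
    apply setIntegral_eq_integral_of_forall_compl_eq_zero
    intro y hy
    by_contra h
    exact hy (hs y h)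
  have h2 : ‖∫ y in {y : Y | d x y ≤ T}, f y ∂m‖ ≤ B * (m {y : Y | d x y ≤ T}).toReal := by
    apply norm_setIntegral_le_of_norm_le_const
    · exact (hC x).trans_lt ENNReal.ofReal_lt_top
    · exact fun y _ => hB y
  rw [← h1]
  refine h2.trans (mul_le_mul_of_nonneg_left ?_ hB0)
  rw [← ENNReal.toReal_ofReal']
  exact ENNReal.toReal_mono ENNReal.ofReal_ne_top (hC x)

/-- invariance -/
theorem KPZ_left (hP : PS Γ Y m D d) (f : Y → ℂ) (γ : Γ) : ∫ y, f (γ • y) ∂m = ∫ y, f y ∂m := by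
  have h1 := KPZ_ms hP
  exact (hP.act γ).integral_comp (MeasurableEquiv.smul γ).measurableEmbedding f

theorem KPZ_sum (hP : PS Γ Y m D d) {K : Y → Y → ℂ} {T : ℝ} (hT : ∀ x y, K x y ≠ 0 → d x y ≤ T) (x y : Y) :
    (Function.support fun γ : Γ => K x (γ • y)).Finite := by
  obtain ⟨n, hn⟩ := hP.fc T
  exact (hn x y).1.subset fun γ hγ => hT _ _ hγ

theorem KPZ_meas (hP : PS Γ Y m D d) {K : Y → Y → ℂ} (hK : KZ Γ d K) : Measurable (Function.uncurry (perZ Γ K)) := by
  have hc : Countable Γ := hP.cnt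
  obtain ⟨T, hT⟩ := hK.range
  have h1 : Tendsto (fun s : Finset Γ => fun p : Y × Y => ∑ γ ∈ s, K p.1 (γ • p.2)) atTop
      (𝓝 (Function.uncurry (perZ Γ K))) := by
    rw [tendsto_pi_nhds]
    rintro ⟨x, y⟩
    have h2 := KPZ_sum hP hT x y
    have h3 : Function.uncurry (perZ Γ K) (x, y) = ∑ γ ∈ h2.toFinset, K x (γ • y) := by
      simp only [Function.uncurry, perZ]
      exact finsum_eq_sum_of_support_subset _ (by simp)
    rw [h3]
    apply tendsto_atTop_of_eventually_const (i₀ := h2.toFinset)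
    intro s hs
    symm
    apply Finset.sum_subset hs
    intro γ _ hγ
    simpa using hγ
  refine measurable_of_tendsto_metrizable' atTop (fun s => ?_) h1
  apply Finset.measurable_sum
  intro γ _
  have h4 : Measurable (fun p : Y × Y => (p.1, γ • p.2)) :=
    measurable_fst.prodMk ((hP.act γ).measurable.comp measurable_snd)
  exact hK.meas.comp h4

theorem KPZ_bdd (hP : PS Γ Y m D d) {K : Y → Y → ℂ} (hK : KZ Γ d K) : ∃ B : ℝ, ∀ x y, ‖perZ Γ K x y‖ ≤ B := by
  obtain ⟨T, hT⟩ := hK.range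
  obtain ⟨B, hB⟩ := hK.bdd
  obtain ⟨n, hn⟩ := hP.fc T
  refine ⟨n * B, fun x y => ?_⟩
  have hB0 : 0 ≤ B := (norm_nonneg _).trans (hB x x)
  have h2 := hn x y
  have h3 : perZ Γ K x y = ∑ γ ∈ h2.1.toFinset, K x (γ • y) := by
    simp only [perZ]
    apply finsum_eq_sum_of_support_subset
    intro γ hγ
    simp only [Finite.coe_toFinset]
    exact hT _ _ hγ
  rw [h3]
  refine (norm_sum_le _ _).trans ((Finset.sum_le_card_nsmul _ _ B fun γ _ => hB _ _).trans ?_)
  rw [nsmul_eq_mul]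
  refine mul_le_mul_of_nonneg_right ?_ hB0
  rw [← Set.ncard_eq_toFinset_card _ h2.1]
  exact_mod_cast h2.2

theorem KPZ_inv {K : Y → Y → ℂ} (hK : KZ Γ d K) (γ : Γ) (x y : Y) :
    perZ Γ K (γ • x) y = perZ Γ K x y ∧ perZ Γ K x (γ • y) = perZ Γ K x y := by
  constructor
  · unfold perZ
    rw [← finsum_comp_equiv (Equiv.mulLeft γ) (f := fun σ : Γ => K (γ • x) (σ • y))]
    refine finsum_congr fun σ => ?_
    have h1 : (Equiv.mulLeft γ σ : Γ) • y = γ • (σ • y) := by
      rw [← mul_smul]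
      rfl
    rw [h1]
    exact hK.inv γ x _
  · unfold perZ
    rw [← finsum_comp_equiv (Equiv.mulRight γ) (f := fun σ : Γ => K x (σ • y))]
    refine finsum_congr fun σ => ?_
    have h1 : σ • (γ • y) = (Equiv.mulRight γ σ : Γ) • y := by
      rw [← mul_smul]
      rfl
    rw [h1]

theorem KPZ_unf (hP : PS Γ Y m D d) {K : Y → Y → ℂ} (hK : KZ Γ d K) (v : Y → ℂ) (hv : Measurable v) {Bv : ℝ}
    (hBv : ∀ y, ‖v y‖ ≤ Bv) (hvi : ∀ (γ : Γ) y, v (γ • y) = v y) (x : Y) :
    ∫ y in D, perZ Γ K x y * v y ∂m = ∫ y, K x y * v y ∂m := by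
  have hc : Countable Γ := hP.cnt
  have i1 := KPZ_ms hP
  have i2 := KPZ_im hP
  have hfd := KPZ_fd hP
  obtain ⟨T, hT⟩ := hK.range
  obtain ⟨B, hB⟩ := hK.bdd
  have hB0 : 0 ≤ B := (norm_nonneg _).trans (hB x x)
  have hBv0 : 0 ≤ Bv := (norm_nonneg _).trans (hBv x)
  have hKg : Measurable (fun y => K x y) := hK.meas.comp (measurable_const.prodMk measurable_id)
  have hint : Integrable (fun y => K x y * v y) m := by
    refine KPZ_int hP (B := B * Bv) (T := T) (hKg.mul hv) (fun y => ?_) x (fun y hy => hT x y (left_ne_zero_of_mul hy))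
    rw [norm_mul]
    exact mul_le_mul (hB _ _) (hBv _) (norm_nonneg _) hB0
  have h1 := hfd.integral_eq_tsum'' _ hint
  rw [h1]
  have hm : ∀ γ : Γ, Measurable (fun y => K x (γ • y) * v (γ • y)) := by
    intro γ
    have h2 : Measurable (fun y : Y => γ • y) := (hP.act γ).measurable
    exact (hKg.comp h2).mul (hv.comp h2)
  have h3 : ∑' γ : Γ, ∫ y in D, K x (γ • y) * v (γ • y) ∂m =
      ∫ y in D, ∑' γ : Γ, K x (γ • y) * v (γ • y) ∂m := by
    symm
    apply integral_tsum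
    · exact fun γ => (hm γ).aestronglyMeasurable
    · have h4 := hfd.lintegral_eq_tsum'' (fun y => ‖K x y * v y‖ₑ)
      rw [← h4]
      exact hint.2.ne
  rw [h3]
  apply setIntegral_congr_fun hP.meas
  intro y _
  have hfin := KPZ_sum hP hT x y
  have h5 : ∀ γ : Γ, K x (γ • y) * v (γ • y) = K x (γ • y) * v y := by
    intro γ
    rw [hvi γ y]
  simp only [h5]
  rw [tsum_mul_right]
  congr 1
  simp only [perZ]
  exact (tsum_eq_finsum hfin).symm

theorem KPZ_cmp (hP : PS Γ Y m D d) {K L : Y → Y → ℂ} (hK : KZ Γ d K) (hL : KZ Γ d L) : KZ Γ d (cmZ m K L) := by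
  have hsf : SigmaFinite m := hP.sf
  obtain ⟨T, hT⟩ := hK.range
  obtain ⟨B, hB⟩ := hK.bdd
  obtain ⟨T', hT'⟩ := hL.range
  obtain ⟨B', hB'⟩ := hL.bdd
  obtain ⟨C, hC⟩ := hP.vol T
  refine ⟨?_, ⟨B * B' * max C 0, fun x y => ?_⟩, ?_, ?_⟩
  · have h1 : Measurable (fun q : (Y × Y) × Y => K q.1.1 q.2 * L q.2 q.1.2) := by
      have h2 : Measurable (fun q : (Y × Y) × Y => K q.1.1 q.2) :=
        hK.meas.comp ((measurable_fst.comp measurable_fst).prodMk measurable_snd)
      have h3 : Measurable (fun q : (Y × Y) × Y => L q.2 q.1.2) :=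
        hL.meas.comp (measurable_snd.prodMk (measurable_snd.comp measurable_fst))
      exact h2.mul h3
    have h4 : StronglyMeasurable (fun q : Y × Y => ∫ p, K q.1 p * L p q.2 ∂m) :=
      h1.stronglyMeasurable.integral_prod_right
    exact h4.measurable
  · have hB0 : 0 ≤ B := (norm_nonneg _).trans (hB x x)
    apply KPZ_bd hP hC (fun p => ?_) x (fun p hp => hT x p (left_ne_zero_of_mul hp))
    rw [norm_mul]
    exact mul_le_mul (hB _ _) (hB' _ _) (norm_nonneg _) hB0
  · intro γ x y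
    unfold cmZ
    rw [← KPZ_left hP _ γ]
    simp only [hK.inv, hL.inv]
  · refine ⟨T + T', fun x y hxy => ?_⟩
    have h1 : ∃ p, K x p * L p y ≠ 0 := by
      by_contra h2
      push Not at h2
      apply hxy
      unfold cmZ
      simp only [h2, integral_zero]
    obtain ⟨p, hp⟩ := h1
    have h3 := hT x p (left_ne_zero_of_mul hp)
    have h4 := hT' p y (right_ne_zero_of_mul hp)
    exact (hP.dt x p y).trans (add_le_add h3 h4)

theorem KPZ_cmp2 (hP : PS Γ Y m D d) {K L : Y → Y → ℂ} (hK : KZ Γ d K) (hL : KZ Γ d L) (x y : Y) :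
    perZ Γ (cmZ m K L) x y = ∫ p in D, perZ Γ K x p * perZ Γ L p y ∂m := by
  have hsf : SigmaFinite m := hP.sf
  have hc : Countable Γ := hP.cnt
  obtain ⟨T, hT⟩ := hK.range
  obtain ⟨B, hB⟩ := hK.bdd
  obtain ⟨T', hT'⟩ := hL.range
  obtain ⟨B', hB'⟩ := hL.bdd
  obtain ⟨B'', hB''⟩ := KPZ_bdd hP hL
  have hB0 : 0 ≤ B := (norm_nonneg _).trans (hB x x)
  have hLm : Measurable (fun p => perZ Γ L p y) := (KPZ_meas hP hL).comp (measurable_id.prodMk measurable_const)
  rw [KPZ_unf hP hK (fun p => perZ Γ L p y) hLm (fun p => hB'' p y) (fun γ p => (KPZ_inv hL γ p y).1) x]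
  obtain ⟨n, hn⟩ := hP.fc (T + T')
  have hS := (hn x y).1
  have hz : ∀ γ : Γ, γ ∉ hS.toFinset → ∀ p, K x p * L p (γ • y) = 0 := by
    intro γ hγ p
    by_contra h0
    apply hγ
    rw [Set.Finite.mem_toFinset]
    have h3 := hT x p (left_ne_zero_of_mul h0)
    have h4 := hT' p _ (right_ne_zero_of_mul h0)
    exact (hP.dt x p _).trans (add_le_add h3 h4)
  have h1 : perZ Γ (cmZ m K L) x y = ∑ γ ∈ hS.toFinset, cmZ m K L x (γ • y) := by
    unfold perZ
    apply finsum_eq_sum_of_support_subset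
    intro γ hγ
    by_contra h2
    apply hγ
    have h3 := hz γ (by simpa using h2)
    show cmZ m K L x (γ • y) = 0
    unfold cmZ
    simp only [h3, integral_zero]
  rw [h1]
  unfold cmZ
  rw [← integral_finsetSum]
  · apply integral_congr_ae
    refine Eventually.of_forall fun p => ?_
    show ∑ γ ∈ hS.toFinset, K x p * L p (γ • y) = K x p * perZ Γ L p y
    by_cases hk : K x p = 0
    · simp [hk]
    · rw [← Finset.mul_sum]
      congr 1
      unfold perZ
      symm
      apply finsum_eq_sum_of_support_subset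
      intro γ hγ
      by_contra h2
      have h3 := hz γ (by simpa using h2) p
      rcases mul_eq_zero.mp h3 with h4 | h4
      · exact hk h4
      · exact hγ h4
  · intro γ _
    have hKg : Measurable (fun p => K x p) := hK.meas.comp (measurable_const.prodMk measurable_id)
    have hLg : Measurable (fun p => L p (γ • y)) := hL.meas.comp (measurable_id.prodMk measurable_const)
    refine KPZ_int hP (B := B * B') (T := T) (hKg.mul hLg) (fun p => ?_) x (fun p hp => hT x p (left_ne_zero_of_mul hp))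
    rw [norm_mul]
    exact mul_le_mul (hB _ _) (hB' _ _) (norm_nonneg _) hB0

end KPZ

theorem KPZ_proof : KPZ_stmt := by
  intro Γ _ Y _ _ m D d hP
  refine ⟨fun K hK => ⟨KPZ_meas hP hK, KPZ_bdd hP hK, fun γ x y => KPZ_inv hK γ x y, ?_⟩, fun K L hK hL =>
    ⟨KPZ_cmp hP hK hL, fun x y => KPZ_cmp2 hP hK hL x y⟩⟩
  rintro v hv ⟨Bv, hBv⟩ hvi x
  exact KPZ_unf hP hK v hv hBv hvi x

end Pool.Agent.VQ
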