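import Pool.Agent.helper80.VQ.SpecFL
import Pool.Agent.helper39.VQ.VYA

/-!
# MP_07c750, project VQ, block FL, row DTN: the matrix `Y` of the linear system is invertible
-/

set_option autoImplicit false

open scoped MatrixGroups ContDiff Topology UpperHalfPlane ComplexConjugate ENNReal
open UpperHalfPlane MeasureTheory Filter Set

namespace Pool.Agent.VQ

open Pool.Agent.RS
open Pool.Agent.VQE (nm)

theorem DTN_proof : DTN_stmt := by
  intro κ K Y P hKs hKr hY0 hP0 hY hP t
  have hKc : ∀ s, (K s).conjTranspose = K s := by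
    intro s
    have hr : ∀ i j, star (K s i j) = K s i j := fun i j => Complex.conj_eq_iff_im.2 (hKr s i j)
    ext i j
    rw [Matrix.conjTranspose_apply, hr]
    fin_cases i <;> fin_cases j
    · rfl
    · exact (hKs s).symm
    · exact hKs s
    · rfl
  have hW : ∀ s, VYA_HD (fun s => (Y s).conjTranspose * P s - (P s).conjTranspose * Y s) 0 s := by
    intro s
    have hYs : VYA_HD Y (P s + ((κ s : ℝ) : ℂ) • (JJ * Y s)) s := hY s
    have hPs : VYA_HD P (K s * Y s + ((κ s : ℝ) : ℂ) • (JJ * P s)) s := hP s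
    have h1 := VYA_sub (VYA_mul (VYA_ct hYs) hPs) (VYA_mul (VYA_ct hPs) hYs)
    have h2 := VYA_algc (J := JJ) (K := K s) (Y := Y s) (P := P s) (c := ((κ s : ℝ) : ℂ)) (Complex.conj_ofReal _) VYA_Jc (hKc s)
    rw [h2] at h1
    exact h1
  have h3 := VYA_const hW t
  refine VYA_det (P := P t) ?_
  have h4 : (Y t).conjTranspose * P t - (P t).conjTranspose * Y t = (Y 0).conjTranspose * P 0 - (P 0).conjTranspose * Y 0 := h3
  rw [h4, hY0, hP0, Matrix.conjTranspose_one, Matrix.conjTranspose_smul, Matrix.conjTranspose_one, Matrix.one_mul, Matrix.mul_one, ← sub_smul]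
  congr 1
  show Complex.I - (starRingEnd ℂ) Complex.I = 2 * Complex.I
  rw [Complex.conj_I]
  ring

end Pool.Agent.VQ
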