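import Pool.Agent.helper11.VQ.Spec3a

/-!
# MP_07c750, project VQ, row DTZ (the word lemma for `T^b`)
-/

set_option autoImplicit false

open scoped ENNReal ComplexConjugate
open MeasureTheory Filter Set

namespace Pool.Agent.VQ

open Pool.Agent.RPQ (IsOp IsMul OProj wrd PJ und1 nst mks)

section DTZ

variable {H : Type} [NormedAddCommGroup H] [InnerProductSpace ℂ H] [CompleteSpace H]

theorem DTZ_pow_norm (T : H →L[ℂ] H) (hT : ‖T‖ ≤ 1) (k : ℕ) : ‖T ^ k‖ ≤ 1 := by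
  induction k with
  | zero =>
    rw [pow_zero]
    exact ContinuousLinearMap.norm_id_le
  | succ k ih =>
    rw [pow_succ]
    calc ‖T ^ k * T‖ ≤ ‖T ^ k‖ * ‖T‖ := norm_mul_le _ _
      _ ≤ 1 * 1 := mul_le_mul ih hT (norm_nonneg _) zero_le_one
      _ = 1 := one_mul 1

omit [CompleteSpace H] in
theorem DTZ_wrd (T P : H →L[ℂ] H) (c : ℂ) (b : ℕ) (hb : 1 ≤ b) : ∀ l : List ℕ, ∃ k : ℕ,
    wrd ((c • T) ^ b) P l = (c ^ k) • wrd T P (l.map (fun x => b * x + (b - 1))) := by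
  intro l
  induction l with
  | nil => exact ⟨0, by simp [wrd]⟩
  | cons x l ih =>
    obtain ⟨k, hk⟩ := ih
    refine ⟨b * (x + 1) + k, ?_⟩
    have h0 : b * (x + 1) = b * x + (b - 1) + 1 := by
      rw [mul_add]
      omega
    have h1 : ((c • T) ^ b) ^ (x + 1) = c ^ (b * (x + 1)) • T ^ (b * x + (b - 1) + 1) := by
      rw [← pow_mul, smul_pow, ← h0]
    show P * ((c • T) ^ b) ^ (x + 1) * wrd ((c • T) ^ b) P l =
      c ^ (b * (x + 1) + k) • (P * T ^ (b * x + (b - 1) + 1) * wrd T P (l.map (fun x => b * x + (b - 1))))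
    rw [h1, hk, mul_smul_comm, mul_smul_comm, smul_mul_assoc, smul_smul, ← pow_add, Nat.add_comm k]

theorem DTZ_fix (T : H →L[ℂ] H) (hT : ‖T‖ ≤ 1) (Φ : H) (d : ℝ) (hd : ‖T Φ - Φ‖ ≤ d) (k : ℕ) : ‖(T ^ k) Φ - Φ‖ ≤ k * d := by
  induction k with
  | zero => simp
  | succ k ih =>
    have h1 : (T ^ (k + 1)) Φ - Φ = (T ^ k) (T Φ - Φ) + ((T ^ k) Φ - Φ) := by
      rw [pow_succ, map_sub]
      show (T ^ k) (T Φ) - Φ = _
      abel
    rw [h1]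
    calc ‖(T ^ k) (T Φ - Φ) + ((T ^ k) Φ - Φ)‖ ≤ ‖(T ^ k) (T Φ - Φ)‖ + ‖(T ^ k) Φ - Φ‖ := norm_add_le _ _
      _ ≤ 1 * d + k * d := by
          refine add_le_add ?_ ih
          calc ‖(T ^ k) (T Φ - Φ)‖ ≤ ‖T ^ k‖ * ‖T Φ - Φ‖ := ContinuousLinearMap.le_opNorm _ _
            _ ≤ 1 * d := mul_le_mul (DTZ_pow_norm T hT k) hd (norm_nonneg _) zero_le_one
      _ = ((k + 1 : ℕ) : ℝ) * d := by push_cast; ring

end DTZ

theorem DTZ_hilb (e : ℝ) (L n b : ℕ) (δ0 : ℝ) (hb : 1 ≤ b)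
    (hW : ∀ (H : Type) [NormedAddCommGroup H] [InnerProductSpace ℂ H] [CompleteSpace H] (V P : H →L[ℂ] H) (Φ : H), ‖V‖ ≤ 1 → OProj P → ‖Φ‖ ≤ 1 → ‖V Φ - Φ‖ ≤ δ0 →
      (∀ l : List ℕ, l.length = L → (∀ b ∈ l, b < n) → ‖wrd V P l‖ ≤ δ0) → ‖P Φ‖ ^ 2 ≤ (2 * L + 1) / n + e)
    (H : Type) [NormedAddCommGroup H] [InnerProductSpace ℂ H] [CompleteSpace H] (T P : H →L[ℂ] H) (Φ : H) (r : ℝ) (hr : 0 < r) (hr1 : b * (2 * r) ≤ δ0)
    (hT : ‖T‖ ≤ 1 + r) (hP : OProj P) (hΦ : ‖Φ‖ ≤ 1 + r) (hfix : ‖T Φ - Φ‖ ≤ r)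
    (hw : ∀ l : List ℕ, l.length = L → (∀ b ∈ l, b < n) → ‖wrd T P (l.map (fun x => b * x + (b - 1)))‖ ≤ δ0) :
    ‖P Φ‖ ^ 2 ≤ (1 + r) ^ 2 * ((2 * L + 1) / n + e) := by
  set c : ℝ := (1 + r)⁻¹ with hc
  have hc0 : 0 < c := by positivity
  have hc1 : c ≤ 1 := inv_le_one_of_one_le₀ (by linarith)
  have hcr : c * (1 + r) = 1 := inv_mul_cancel₀ (by linarith)
  have hcn : ‖((c : ℝ) : ℂ)‖ = c := by rw [Complex.norm_real, Real.norm_eq_abs, abs_of_pos hc0]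
  have hΦS : ‖((c : ℝ) : ℂ) • Φ‖ ≤ 1 := by
    rw [norm_smul, hcn]
    calc c * ‖Φ‖ ≤ c * (1 + r) := mul_le_mul_of_nonneg_left hΦ hc0.le
      _ = 1 := hcr
  have hV : ‖((c : ℝ) : ℂ) • T‖ ≤ 1 := by
    rw [norm_smul, hcn]
    calc c * ‖T‖ ≤ c * (1 + r) := mul_le_mul_of_nonneg_left hT hc0.le
      _ = 1 := hcr
  have hd : ‖(((c : ℝ) : ℂ) • T) (((c : ℝ) : ℂ) • Φ) - ((c : ℝ) : ℂ) • Φ‖ ≤ 2 * r := by
    have h1 : (((c : ℝ) : ℂ) • T) (((c : ℝ) : ℂ) • Φ) - ((c : ℝ) : ℂ) • Φ =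
        (((c : ℝ) : ℂ) * ((c : ℝ) : ℂ)) • (T Φ - Φ) + (((c : ℝ) : ℂ) - 1) • (((c : ℝ) : ℂ) • Φ) := by
      show ((c : ℝ) : ℂ) • T (((c : ℝ) : ℂ) • Φ) - ((c : ℝ) : ℂ) • Φ = _
      rw [map_smul]
      module
    have h2 : ‖((c : ℝ) : ℂ) - 1‖ ≤ r := by
      have : ((c : ℝ) : ℂ) - 1 = ((c - 1 : ℝ) : ℂ) := by push_cast; ring
      rw [this, Complex.norm_real, Real.norm_eq_abs, abs_le]
      constructor
      · nlinarith
      · linarith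
    rw [h1]
    calc ‖(((c : ℝ) : ℂ) * ((c : ℝ) : ℂ)) • (T Φ - Φ) + (((c : ℝ) : ℂ) - 1) • (((c : ℝ) : ℂ) • Φ)‖
        ≤ ‖(((c : ℝ) : ℂ) * ((c : ℝ) : ℂ)) • (T Φ - Φ)‖ + ‖(((c : ℝ) : ℂ) - 1) • (((c : ℝ) : ℂ) • Φ)‖ := norm_add_le _ _
      _ ≤ 1 * r + r * 1 := by
          refine add_le_add ?_ ?_
          · rw [norm_smul, norm_mul, hcn]
            exact mul_le_mul (mul_le_one₀ hc1 hc0.le hc1) hfix (norm_nonneg _) zero_le_one
          · rw [norm_smul]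
            exact mul_le_mul h2 hΦS (norm_nonneg _) hr.le
      _ = 2 * r := by ring
  have h9 := DTZ_fix (((c : ℝ) : ℂ) • T) hV (((c : ℝ) : ℂ) • Φ) (2 * r) hd b
  have key := hW H ((((c : ℝ) : ℂ) • T) ^ b) P (((c : ℝ) : ℂ) • Φ) (DTZ_pow_norm _ hV b) hP hΦS (h9.trans hr1) ?_
  · rw [map_smul, norm_smul, mul_pow, hcn] at key
    have h3 : (1 + r) ^ 2 * c ^ 2 = 1 := by
      rw [← mul_pow, mul_comm, hcr, one_pow]
    calc ‖P Φ‖ ^ 2 = (1 + r) ^ 2 * (c ^ 2 * ‖P Φ‖ ^ 2) := by rw [← mul_assoc, h3, one_mul]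
      _ ≤ (1 + r) ^ 2 * ((2 * L + 1) / n + e) := mul_le_mul_of_nonneg_left key (by positivity)
  · intro l hl hb'
    obtain ⟨k, hk⟩ := DTZ_wrd T P ((c : ℝ) : ℂ) b hb l
    rw [hk, norm_smul, norm_pow, hcn]
    refine le_trans ?_ (hw l hl hb')
    exact mul_le_of_le_one_left (norm_nonneg _) (pow_le_one₀ hc0.le hc1)

theorem DTZ_proof (hWRD : RPQ.WRD_stmt) : DTZ_stmt := by
  intro e b L n he hb _ hn
  obtain ⟨δw, hδw, hW⟩ := hWRD (e / 4) L n (by positivity) hn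
  have hbR : (1 : ℝ) ≤ b := by exact_mod_cast hb
  have hb0 : (0 : ℝ) < b := by linarith
  have hnR : (1 : ℝ) ≤ n := by exact_mod_cast hn
  have hn0 : (0 : ℝ) < n := by linarith
  have hL0 : (0 : ℝ) < 2 * L + 1 := by positivity
  set r : ℝ := min (δw / (2 * b)) (min (e / (12 * (2 * L + 1))) (1 / 3)) with hrdef
  have hr : 0 < r := lt_min (by positivity) (lt_min (by positivity) (by norm_num))
  have hr1 : r ≤ δw / (2 * b) := min_le_left _ _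
  have hr2 : r ≤ e / (12 * (2 * L + 1)) := (min_le_right _ _).trans (min_le_left _ _)
  have hr3 : r ≤ 1 / 3 := (min_le_right _ _).trans (min_le_right _ _)
  have h1 : (b : ℝ) * (2 * r) ≤ δw := by
    rw [le_div_iff₀ (by positivity)] at hr1
    linarith
  have h2 : r ≤ δw := by
    have : r ≤ (b : ℝ) * (2 * r) := by nlinarith
    linarith
  refine ⟨r, hr, ?_⟩
  intro H _ _ _ T P Φ hT hP hΦ hfix hw
  have key := DTZ_hilb (e / 4) L n b δw hb hW H T P Φ r hr h1 hT hP hΦ hfix ?_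
  · refine key.trans ?_
    have hA : (2 * (L : ℝ) + 1) / n ≤ 2 * L + 1 := div_le_self hL0.le hnR
    have hA0 : 0 ≤ (2 * (L : ℝ) + 1) / n := by positivity
    have h3 : r * (2 * (L : ℝ) + 1) ≤ e / 12 := by
      rw [le_div_iff₀ (by positivity)] at hr2
      linarith
    have h4 : r * ((2 * (L : ℝ) + 1) / n) ≤ e / 12 := (mul_le_mul_of_nonneg_left hA hr.le).trans h3
    have h5 : (1 + r) ^ 2 ≤ 1 + 3 * r := by nlinarith
    have h6 : (1 + r) ^ 2 * ((2 * (L : ℝ) + 1) / n + e / 4) ≤ (1 + 3 * r) * ((2 * (L : ℝ) + 1) / n + e / 4) :=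
      mul_le_mul_of_nonneg_right h5 (by positivity)
    have h7 : r * e ≤ 1 / 3 * e := mul_le_mul_of_nonneg_right hr3 he.le
    nlinarith
  · intro l hl hl'
    exact (hw _ ⟨l, hl, hl', rfl⟩).trans h2

end Pool.Agent.VQ
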