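import Pool.Agent.helper80.VQ.SpecFL

/-!
# MP_07c750, project VQ, block FL, row EXT: the extension of the fields with a cut-off
-/

set_option autoImplicit false

open scoped MatrixGroups ContDiff Topology UpperHalfPlane ComplexConjugate ENNReal
open UpperHalfPlane MeasureTheory Filter Set

namespace Pool.Agent.VQ

open Pool.Agent.RS
open Pool.Agent.VQE (nm)

noncomputable section

theorem EXT_m4 (x : F4) (hx : 0 < dt4 x) : ∃ l : ℝ, 0 < l ∧ ∃ g : SL(2, ℝ), x = l • m4 g := by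
  have hl : 0 < Real.sqrt (dt4 x) := Real.sqrt_pos.2 hx
  have hll : Real.sqrt (dt4 x) * Real.sqrt (dt4 x) = dt4 x := Real.mul_self_sqrt hx.le
  set l := Real.sqrt (dt4 x) with hldef
  refine ⟨l, hl, ⟨!![x 0 / l, x 1 / l; x 2 / l, x 3 / l], ?_⟩, ?_⟩
  · rw [Matrix.det_fin_two_of]
    have h1 : x 0 / l * (x 3 / l) - x 1 / l * (x 2 / l) = dt4 x / (l * l) := by
      unfold dt4
      field_simp
    rw [h1, hll, div_self hx.ne']
  · ext i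
    fin_cases i <;> simp [m4] <;> field_simp

theorem EXT_dt (l : ℝ) (g : SL(2, ℝ)) : dt4 (l • m4 g) = l ^ 2 := by
  have h1 := g.2
  rw [Matrix.det_fin_two] at h1
  have h2 : dt4 (l • m4 g) = l ^ 2 * (g.1 0 0 * g.1 1 1 - g.1 0 1 * g.1 1 0) := by
    simp [dt4, m4]
    ring
  rw [h2, h1, mul_one]

theorem EXT_dts : ContDiff ℝ ∞ dt4 := by
  unfold dt4
  fun_prop

/-- the open set where everything is smooth -/
def EXT_W (e : ℝ) : Set (F4 × ℝ) := {y | 0 < dt4 y.1 ∧ |y.2| < 2 * e}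

theorem EXT_Wo (e : ℝ) : IsOpen (EXT_W e) := by
  have h1 : Continuous fun y : F4 × ℝ => dt4 y.1 := EXT_dts.continuous.comp continuous_fst
  have h2 : Continuous fun y : F4 × ℝ => |y.2| := continuous_snd.abs
  exact (isOpen_lt continuous_const h1).inter (isOpen_lt h2 continuous_const)

/-- the cut-off functions -/
theorem EXT_bump (e : ℝ) (he : 0 < e) : ∃ s1 s2 : ℝ → ℝ, ContDiff ℝ ∞ s1 ∧ ContDiff ℝ ∞ s2 ∧ (∀ x, 0 ≤ s1 x ∧ s1 x ≤ 1) ∧ (∀ x, 0 ≤ s2 x ∧ s2 x ≤ 1) ∧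
    (∀ x, 81 / 100 ≤ x → x ≤ 121 / 100 → s1 x = 1) ∧ (∀ x, |x| ≤ e → s2 x = 1) ∧
    (∀ x, s1 x ≠ 0 → 1 / 2 ≤ x) ∧ ∀ x, s2 x ≠ 0 → |x| ≤ 3 / 2 * e := by
  let f1 : ContDiffBump (101 / 100 : ℝ) := ⟨20 / 100, 49 / 100, by norm_num, by norm_num⟩
  let f2 : ContDiffBump (0 : ℝ) := ⟨e, 3 / 2 * e, he, by linarith⟩
  refine ⟨f1, f2, f1.contDiff, f2.contDiff, fun x => ⟨f1.nonneg, f1.le_one⟩, fun x => ⟨f2.nonneg, f2.le_one⟩, ?_, ?_, ?_, ?_⟩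
  · intro x h1 h2
    apply f1.one_of_mem_closedBall
    rw [Metric.mem_closedBall, Real.dist_eq, abs_le]
    show -(20 / 100 : ℝ) ≤ x - 101 / 100 ∧ x - 101 / 100 ≤ 20 / 100
    constructor <;> linarith
  · intro x h1
    apply f2.one_of_mem_closedBall
    rw [Metric.mem_closedBall, Real.dist_eq, sub_zero]
    exact h1
  · intro x h1
    have h2 : x ∈ Function.support f1 := h1
    rw [f1.support_eq, Metric.mem_ball, Real.dist_eq, abs_lt] at h2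
    have h3 : -(49 / 100 : ℝ) < x - 101 / 100 := h2.1
    linarith
  · intro x h1
    have h2 : x ∈ Function.support f2 := h1
    rw [f2.support_eq, Metric.mem_ball, Real.dist_eq, sub_zero] at h2
    have h3 : |x| < 3 / 2 * e := h2
    exact h3.le

theorem EXT_smooth {e : ℝ} (he : 0 < e) {s1 s2 : ℝ → ℝ} (h1 : ContDiff ℝ ∞ s1) (h2 : ContDiff ℝ ∞ s2) (h1' : ∀ x, s1 x ≠ 0 → 1 / 2 ≤ x)
    (h2' : ∀ x, s2 x ≠ 0 → |x| ≤ 3 / 2 * e) (h : F4 × ℝ → ℝ) (hh : ContDiffOn ℝ ∞ h (EXT_W e)) :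
    ContDiff ℝ ∞ fun y : F4 × ℝ => s1 (dt4 y.1) * s2 y.2 * h y := by
  rw [contDiff_iff_contDiffAt]
  intro y
  by_cases hy : y ∈ EXT_W e
  · have h3 : ContDiffAt ℝ ∞ h y := hh.contDiffAt ((EXT_Wo e).mem_nhds hy)
    have h4 : ContDiff ℝ ∞ fun y : F4 × ℝ => s1 (dt4 y.1) * s2 y.2 :=
      (h1.comp (EXT_dts.comp contDiff_fst)).mul (h2.comp contDiff_snd)
    exact h4.contDiffAt.mul h3
  · have h3 : Continuous fun y : F4 × ℝ => dt4 y.1 := EXT_dts.continuous.comp continuous_fst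
    have h4 : Continuous fun y : F4 × ℝ => |y.2| := continuous_snd.abs
    have hC : IsClosed {y : F4 × ℝ | 1 / 2 ≤ dt4 y.1 ∧ |y.2| ≤ 3 / 2 * e} :=
      (isClosed_le continuous_const h3).inter (isClosed_le h4 continuous_const)
    have hyC : y ∈ {y : F4 × ℝ | 1 / 2 ≤ dt4 y.1 ∧ |y.2| ≤ 3 / 2 * e}ᶜ := by
      intro h5
      exact hy ⟨by linarith [h5.1], by linarith [h5.2]⟩
    have h5 : (fun y : F4 × ℝ => s1 (dt4 y.1) * s2 y.2 * h y) =ᶠ[𝓝 y] fun _ => 0 := by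
      filter_upwards [hC.isOpen_compl.mem_nhds hyC] with z hz
      by_contra h6
      apply hz
      have h7 : s1 (dt4 z.1) ≠ 0 := fun h8 => h6 (by rw [h8, zero_mul, zero_mul])
      have h8 : s2 z.2 ≠ 0 := fun h8 => h6 (by rw [h8, mul_zero, zero_mul])
      exact ⟨h1' _ h7, h2' _ h8⟩
    exact contDiffAt_const.congr_of_eventuallyEq h5

theorem EXT_bd {e C : ℝ} (hC : 0 ≤ C) {s1 s2 : ℝ → ℝ} (h1 : ∀ x, 0 ≤ s1 x ∧ s1 x ≤ 1) (h2 : ∀ x, 0 ≤ s2 x ∧ s2 x ≤ 1) (h1' : ∀ x, s1 x ≠ 0 → 1 / 2 ≤ x)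
    (h2' : ∀ x, s2 x ≠ 0 → |x| ≤ 3 / 2 * e) (h : F4 × ℝ → ℝ) (hh : ∀ y : F4 × ℝ, 0 < dt4 y.1 → |y.2| ≤ 3 / 2 * e → |h y| ≤ C) (y : F4 × ℝ) :
    |s1 (dt4 y.1) * s2 y.2 * h y| ≤ C := by
  by_cases h3 : s1 (dt4 y.1) = 0
  · rw [h3, zero_mul, zero_mul, abs_zero]
    exact hC
  by_cases h4 : s2 y.2 = 0
  · rw [h4, mul_zero, zero_mul, abs_zero]
    exact hC
  have h5 := hh y (by linarith [h1' _ h3]) (h2' _ h4)
  rw [abs_mul, abs_mul, abs_of_nonneg (h1 _).1, abs_of_nonneg (h2 _).1]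
  have h6 : s1 (dt4 y.1) * s2 y.2 ≤ 1 := mul_le_one₀ (h1 _).2 (h2 _).1 (h2 _).2
  calc s1 (dt4 y.1) * s2 y.2 * |h y| ≤ 1 * |h y| := mul_le_mul_of_nonneg_right h6 (abs_nonneg _)
    _ ≤ C := by rw [one_mul]; exact h5

theorem EXT_proof (hEX1 : EX1_stmt) (hVUG : VUG_stmt) : EXT_stmt := by
  intro Γ e B U hPot
  have he := hPot.pos
  obtain ⟨u, v, hu, hv, huv⟩ := hEX1 U hPot.smooth
  obtain ⟨hb, -⟩ := hVUG Γ e B U hPot
  obtain ⟨s1, s2, c1, c2, b1, b2, e1, e2, z1, z2⟩ := EXT_bump e he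
  have hub : ∀ x : F4, 0 < dt4 x → 4 * e ≤ u x ∧ u x ≤ B 0 ∧ |v x| ≤ B 1 := by
    intro x hx
    obtain ⟨l, hl, g, rfl⟩ := EXT_m4 x hx
    obtain ⟨h1, h2⟩ := huv l g hl
    obtain ⟨h3, h5, -, h4, -⟩ := hb g
    rw [h1, h2]
    exact ⟨h3, h5, h4⟩
  have hu' : ContDiffOn ℝ ∞ (fun y : F4 × ℝ => u y.1 + 2 * y.2) (EXT_W e) := by
    have h1 : ContDiffOn ℝ ∞ (fun y : F4 × ℝ => u y.1) (EXT_W e) := hu.comp contDiff_fst.contDiffOn fun y hy => hy.1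
    exact h1.add (contDiff_const.mul contDiff_snd).contDiffOn
  have hv' : ContDiffOn ℝ ∞ (fun y : F4 × ℝ => v y.1) (EXT_W e) := hv.comp contDiff_fst.contDiffOn fun y hy => hy.1
  have hpos : ∀ y ∈ EXT_W e, 0 < u y.1 + 2 * y.2 := by
    intro y hy
    have h1 := (hub y.1 hy.1).1
    have h2 := (abs_lt.1 hy.2).1
    linarith
  have hs' : ContDiffOn ℝ ∞ (fun y : F4 × ℝ => Real.sqrt (u y.1 + 2 * y.2)) (EXT_W e) := hu'.sqrt fun y hy => (hpos y hy).ne'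
  have hk' : ContDiffOn ℝ ∞ (fun y : F4 × ℝ => v y.1 / (2 * Real.sqrt (u y.1 + 2 * y.2))) (EXT_W e) :=
    hv'.div (contDiffOn_const.mul hs') fun y hy => mul_ne_zero two_ne_zero (Real.sqrt_pos.2 (hpos y hy)).ne'
  have hse : 0 < Real.sqrt e := Real.sqrt_pos.2 he
  have hsb : ∀ y : F4 × ℝ, 0 < dt4 y.1 → |y.2| ≤ 3 / 2 * e → Real.sqrt e ≤ Real.sqrt (u y.1 + 2 * y.2) ∧ Real.sqrt (u y.1 + 2 * y.2) ≤ Real.sqrt (B 0 + 3 * e) := by
    intro y h1 h2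
    obtain ⟨h3, h4, -⟩ := hub y.1 h1
    rw [abs_le] at h2
    constructor
    · exact Real.sqrt_le_sqrt (by linarith [h2.1])
    · exact Real.sqrt_le_sqrt (by linarith [h2.2])
  have hC0 : 0 ≤ max (Real.sqrt (B 0 + 3 * e)) (B 1 / (2 * Real.sqrt e)) := le_max_of_le_left (Real.sqrt_nonneg _)
  refine ⟨max (Real.sqrt (B 0 + 3 * e)) (B 1 / (2 * Real.sqrt e)), fun y => s1 (dt4 y.1) * s2 y.2 * Real.sqrt (u y.1 + 2 * y.2),
    fun y => s1 (dt4 y.1) * s2 y.2 * (v y.1 / (2 * Real.sqrt (u y.1 + 2 * y.2))), ?_, ?_, ?_, ?_⟩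
  · exact EXT_smooth he c1 c2 z1 z2 _ hs'
  · exact EXT_smooth he c1 c2 z1 z2 _ hk'
  · intro y
    refine ⟨EXT_bd hC0 b1 b2 z1 z2 (fun y => Real.sqrt (u y.1 + 2 * y.2)) (fun y h1 h2 => ?_) y,
      EXT_bd hC0 b1 b2 z1 z2 (fun y => v y.1 / (2 * Real.sqrt (u y.1 + 2 * y.2))) (fun y h1 h2 => ?_) y⟩
    · rw [abs_of_nonneg (Real.sqrt_nonneg _)]
      exact (hsb y h1 h2).2.trans (le_max_left _ _)
    · have h3 := (hsb y h1 h2).1
      have h4 := (hub y.1 h1).2.2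
      refine le_trans ?_ (le_max_right _ _)
      rw [abs_div, abs_of_pos (by linarith : (0 : ℝ) < 2 * Real.sqrt (u y.1 + 2 * y.2))]
      exact div_le_div₀ ((abs_nonneg _).trans h4) h4 (by linarith) (by linarith)
  · intro E l g hE hl1 hl2
    have hl0 : 0 < l := by linarith
    have h1 : s1 (dt4 (l • m4 g)) = 1 := by
      rw [EXT_dt]
      apply e1
      · nlinarith
      · nlinarith
    have h2 : s2 E = 1 := e2 E hE
    obtain ⟨h3, h4⟩ := huv l g hl0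
    constructor
    · show s1 (dt4 (l • m4 g)) * s2 E * Real.sqrt (u (l • m4 g) + 2 * E) = rho U E g
      rw [h1, h2, h3, one_mul, one_mul]
      rfl
    · show s1 (dt4 (l • m4 g)) * s2 E * (v (l • m4 g) / (2 * Real.sqrt (u (l • m4 g) + 2 * E))) = kap U E g
      rw [h1, h2, h3, h4, one_mul, one_mul]
      rfl

end

end Pool.Agent.VQ
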