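import Pool.Agent.helper84.VQ.Spec4a

/-!
# MP_07c750, project VQ, row I54 = I5 (rigidity: the volume of the chains with fixed end points)
-/

set_option autoImplicit false

open scoped MatrixGroups ContDiff Topology UpperHalfPlane ComplexConjugate ENNReal
open UpperHalfPlane MeasureTheory Filter Set

namespace Pool.Agent.VQ

open Pool.Agent.RS
open Pool.Agent.VQE (nm)

theorem I54_lM : lM 0 = 1 := by
  ext i j
  fin_cases i <;> fin_cases j <;> simp [lM]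

/-- the differences of two points and of the points with other signs -/
theorem I54_pm {p q p' q' : SL(2, ℝ) × ℝ} {ρ : ℝ} (h1 : Pm p p') (h2 : Pm q q') (h : nm (p'.1⁻¹ * q'.1) ≤ ρ) :
    nm (p.1⁻¹ * q.1) ≤ ρ ∨ nm (-(p.1⁻¹ * q.1)) ≤ ρ := by
  rcases h1.1 with e1 | e1 <;> rcases h2.1 with e2 | e2
  · left
    rw [e1, e2] at h
    exact h
  · right
    rw [e1, e2, mul_neg] at h
    exact h
  · right
    rw [e1, e2, inv_neg, neg_mul] at h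
    exact h
  · left
    rw [e1, e2, inv_neg, neg_mul_neg] at h
    exact h

theorem I54_end {q q1 q2 : SL(2, ℝ) × ℝ} (h1 : Pm q q1) (h2 : Pm q q2) : (q1.1⁻¹ * q2.1).1 1 0 = 0 := by
  have h3 : q1.1⁻¹ * q2.1 = 1 ∨ q1.1⁻¹ * q2.1 = -1 := by
    rcases h1.1 with e1 | e1 <;> rcases h2.1 with e2 | e2
    · left
      rw [e1, e2, inv_mul_cancel]
    · right
      rw [e1, e2, mul_neg, inv_mul_cancel]
    · right
      rw [e1, e2, inv_neg, neg_mul, inv_mul_cancel]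
    · left
      rw [e1, e2, inv_neg, neg_mul_neg, inv_mul_cancel]
  rcases h3 with h3 | h3
  · rw [h3]
    simp
  · rw [h3]
    simp

theorem I54_mul {K K1 x : ℝ} (hK : K ≤ K1) (hx : 0 ≤ x) : K * x ≤ K1 * x := mul_le_mul_of_nonneg_right hK hx

/-- the chains with fixed end points are in boxes around the points of one of them -/
theorem I54_sub (K d : ℝ) (D : Dyn) (hFE : FE d D) (hd : 0 < d) (hdK : d ≤ 1 / K) (hK1 : 1 ≤ K)
    (hDI : ∀ (d : ℝ) (D : Dyn), FE d D → 0 < d → d ≤ 1 / K → ∀ (t ε u : ℝ) (n : ℕ) (w w' : ℕ → SL(2, ℝ) × ℝ), 1 ≤ t → t ≤ 2 → 0 < ε → K * ((n + 1) * ε) ≤ 1 →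
      PO D d t ε n w → PO D d t ε n w' → (∀ i ≤ n, |(w' i).2 - (w i).2| ≤ ε) → (w 0).1⁻¹ * (w' 0).1 = lM u → |u| ≤ 1 / K →
      (((w n).1⁻¹ * (w' n).1).1 1 0 = 0 → ∀ i ≤ n, nm ((w i).1⁻¹ * (w' i).1) ≤ K * ((n + 1) * ε)) ∧
      (K * ((n + 1) * ε) ≤ |u| → 0 < u * ((w n).1⁻¹ * (w' n).1).1 1 0))
    (hCH4 : CH4_stmt) (A : Prm) (R t ε ρ : ℝ) (k N : ℕ) (hN : 1 ≤ N) (hm : 1 ≤ A.m) (hk : 1 ≤ k) (ht1 : 1 ≤ t) (ht2 : t ≤ 2)
    (hsg : A.sg R = k * t) (hr0 : 0 < A.r R) (hr1 : A.r R ≤ 1 / 100) (hε : 0 < ε) (h3 : 3 * A.r R ≤ ε)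
    (h2 : 2 * (N * ((A.m + 1) * A.r R)) ≤ ε) (hKε : K * (((N * (A.m * k) : ℕ) + 1) * ε) ≤ ρ) (hρ1 : ρ ≤ 1) (hW : ∀ E ∈ Wi 2 R, |E| ≤ d / 4)
    (p q : SL(2, ℝ) × ℝ) (v0 v : Fin (N - 1) → SL(2, ℝ) × ℝ) (hv0 : Ch D A R N (vz p q v0)) (hv : Ch D A R N (vz p q v)) (j : Fin (N - 1)) :
    (nm ((v0 j).1⁻¹ * (v j).1) ≤ ρ ∨ nm (-((v0 j).1⁻¹ * (v j).1)) ≤ ρ) ∧ |(v j).2 - (v0 j).2| ≤ ρ := by
  obtain ⟨w, hw1, hw2, hw3, hw4⟩ := hCH4 d D hFE A R t ε k N (vz p q v0) hsg hk hm hr0 hr1 h3 hW hN hv0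
  obtain ⟨w', hw1', hw2', hw3', hw4'⟩ := hCH4 d D hFE A R t ε k N (vz p q v) hsg hk hm hr0 hr1 h3 hW hN hv
  have hz0 : ∀ v : Fin (N - 1) → SL(2, ℝ) × ℝ, vz p q v 0 = p := fun v => rfl
  have hzN : ∀ v : Fin (N - 1) → SL(2, ℝ) × ℝ, vz p q v N = q := by
    intro v
    obtain ⟨M, rfl⟩ : ∃ M, N = M + 1 := ⟨N - 1, by omega⟩
    show (if hj : M < M + 1 - 1 then v ⟨M, hj⟩ else q) = q
    rw [dif_neg (by omega)]
  have hzj : ∀ v : Fin (N - 1) → SL(2, ℝ) × ℝ, vz p q v ((j : ℕ) + 1) = v j := by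
    intro v
    show (if hj : (j : ℕ) < N - 1 then v ⟨j, hj⟩ else q) = v j
    rw [dif_pos j.2]
  rw [hz0] at hw2 hw2'
  have hen : ∀ i ≤ N * (A.m * k), |(w' i).2 - (w i).2| ≤ ε := by
    intro i hi
    have a1 := hw4 i hi
    have a2 := hw4' i hi
    rw [hz0] at a1 a2
    have a3 : (w' i).2 - (w i).2 = ((w' i).2 - p.2) - ((w i).2 - p.2) := by ring
    rw [a3]
    refine (abs_sub _ _).trans ?_
    linarith
  have hnε : (0 : ℝ) ≤ ((N * (A.m * k) : ℕ) + 1) * ε := by positivity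
  have hd1 := (hDI d D hFE hd hdK t ε 0 (N * (A.m * k)) w w' ht1 ht2 hε (hKε.trans hρ1) hw1 hw1' hen (by
    rw [hw2, hw2', inv_mul_cancel, I54_lM]) (by
    rw [abs_zero]
    positivity)).1 (by
    have a1 := hw3 N le_rfl
    have a2 := hw3' N le_rfl
    rw [hzN] at a1 a2
    exact I54_end a1 a2)
  have hj : (j : ℕ) + 1 ≤ N := by
    have := j.2
    omega
  have hji : ((j : ℕ) + 1) * (A.m * k) ≤ N * (A.m * k) := Nat.mul_le_mul_right _ hj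
  have a1 := hw3 ((j : ℕ) + 1) hj
  have a2 := hw3' ((j : ℕ) + 1) hj
  rw [hzj] at a1 a2
  refine ⟨I54_pm a1 a2 ((hd1 _ hji).trans hKε), ?_⟩
  have a3 := hen _ hji
  rw [a1.2, a2.2] at a3
  refine a3.trans (le_trans ?_ hKε)
  have a4 : (1 : ℝ) ≤ ((N * (A.m * k) : ℕ) : ℝ) + 1 := by
    have : (0 : ℝ) ≤ ((N * (A.m * k) : ℕ) : ℝ) := Nat.cast_nonneg _
    linarith
  calc ε = 1 * (1 * ε) := by ring
    _ ≤ K * (((N * (A.m * k) : ℕ) + 1) * ε) := by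
        refine mul_le_mul hK1 (mul_le_mul_of_nonneg_right a4 hε.le) (by linarith) (by linarith)

theorem I54_proof (hFE4 : FE4_stmt) (hDI4 : DI4_stmt) (hCH4 : CH4_stmt) (hAR4 : AR4_stmt) (hBX4 : BX4_stmt) : I5_stmt := by
  intro Γ hΓ
  obtain ⟨K0, hK0, hF⟩ := hFE4 Γ hΓ
  obtain ⟨K, hK, hD⟩ := hDI4
  obtain ⟨C', hC', hB⟩ := hBX4
  have hK00 : (0 : ℝ) < K0 := by linarith
  have hKK : (0 : ℝ) < K := by linarith
  refine ⟨1 / (10 * K0 * K), 10, by positivity, by norm_num, ?_⟩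
  intro B A N hA hN
  have hd : K0 * (1 / (10 * K0 * K)) = 1 / (10 * K) := by
    field_simp
  have hd0 : 0 < 1 / (10 * K) := by positivity
  have hd10 : 1 / (10 * K) ≤ 1 / 10 := by
    apply one_div_le_one_div_of_le (by norm_num)
    linarith
  have hdK : 1 / (10 * K) ≤ 1 / K := by
    apply one_div_le_one_div_of_le hKK
    linarith
  obtain ⟨R0, hR0, hAR⟩ := hAR4 A N (max K C') (1 / (10 * K)) hA hN (hK.trans (le_max_left _ _)) hd0
  refine ⟨R0, by linarith, ?_⟩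
  intro R D hR hOK p q
  have hFE : FE (1 / (10 * K)) D := by
    have h1 := hF (1 / (10 * K0 * K)) B D (by positivity) (by rw [hd]; exact hd10) hOK
    rwa [hd] at h1
  obtain ⟨k, t, ε, hk, ht1, ht2, hsg, hr0, hr1, hε, h3, h2, hKε, hρK, hW, hρ4, -⟩ := hAR R hR
  have hRpos : 0 < R := by linarith
  set ρ : ℝ := R ^ (-(1 / 2) + 3 / 2 * A.z2) with hρdef
  have hρ0 : 0 < ρ := Real.rpow_pos_of_pos hRpos _
  have hM1 : 1 ≤ max K C' := hK.trans (le_max_left _ _)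
  have hρ10 : ρ ≤ 1 / 10 := by
    refine hρK.trans ?_
    apply one_div_le_one_div_of_le (by norm_num)
    linarith
  have hKε' : K * (((N * (A.m * k) : ℕ) + 1) * ε) ≤ ρ := (I54_mul (le_max_left K C') (by positivity)).trans hKε
  have hC4 : C' * ρ ^ 4 ≤ R ^ (-2 + 10 * A.z2) := (I54_mul (le_max_right K C') (by positivity)).trans hρ4
  by_cases hne : ∃ v0 : Fin (N - 1) → SL(2, ℝ) × ℝ, Ch D A R N (vz p q v0)
  · obtain ⟨v0, hv0⟩ := hne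
    have hsub : {v : Fin (N - 1) → SL(2, ℝ) × ℝ | Ch D A R N (vz p q v)} ⊆ Set.pi Set.univ fun j : Fin (N - 1) =>
        {q : SL(2, ℝ) × ℝ | (nm ((v0 j).1⁻¹ * q.1) ≤ ρ ∨ nm (-((v0 j).1⁻¹ * q.1)) ≤ ρ) ∧ |q.2 - (v0 j).2| ≤ ρ} := by
      intro v hv j _
      exact I54_sub K (1 / (10 * K)) D hFE hd0 hdK hK hD hCH4 A R t ε ρ k N hN hA.m hk ht1 ht2 hsg hr0 hr1 hε h3 h2 hKε'
        (by linarith) hW p q v0 v hv0 hv j
    have hsf : SigmaFinite (mW R) := (hB R ρ p hρ0 hρ10).1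
    refine (measure_mono hsub).trans ?_
    rw [mZ, Measure.pi_pi]
    refine (Finset.prod_le_prod' fun j _ => (hB R ρ (v0 j) hρ0 hρ10).2).trans ?_
    rw [Finset.prod_const, Finset.card_univ, Fintype.card_fin, ENNReal.ofReal_pow (Real.rpow_nonneg hRpos.le _)]
    exact pow_le_pow_left' (ENNReal.ofReal_le_ofReal hC4) _
  · have he : {v : Fin (N - 1) → SL(2, ℝ) × ℝ | Ch D A R N (vz p q v)} = ∅ := by
      ext v
      constructor
      · intro hv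
        exact absurd ⟨v, hv⟩ hne
      · intro hv
        exact absurd hv (Set.notMem_empty v)
    rw [he, measure_empty]
    exact zero_le

end Pool.Agent.VQ
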